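import Mathlib

/-!
# Project NA (helper745): MP_c8dc36_an, frozen statement S06121 (full answer, yes)

Surjective maps `T : A₁⁺ → A₂⁺` with `‖T f + T g‖ = ‖T (f + g)‖` are additive. Here are the pieces; everything
happens in a unital C*-algebra `𝒜 ⊇ A₂` and `J ⊆ 𝒜` is the image of `A₂`.
-/

set_option autoImplicit false

namespace Run7.h745.NA

/-- the closure properties of `J = A₂ ⊆ 𝒜` that are used -/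
structure Clo {𝒜 : Type} [CStarAlgebra 𝒜] (J : Set 𝒜) : Prop where
  add : ∀ a ∈ J, ∀ b ∈ J, a + b ∈ J
  smul : ∀ (r : ℝ), ∀ a ∈ J, r • a ∈ J
  mul : ∀ a ∈ J, ∀ b ∈ J, a * b ∈ J
  cfc : ∀ (h : ℝ → ℝ), Continuous h → h 0 = 0 → ∀ a ∈ J, IsSelfAdjoint a → cfc h a ∈ J

/-- UNI. `𝒜 = Unitization ℂ A` (with `CStarAlgebra.spectralOrder`, `CStarAlgebra.spectralOrderedRing`), `ι = inr`;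
`Unitization.norm_inr`, `Unitization.inr_nonneg_iff`, `Unitization.cfcₙ_eq_cfc_inr` (or build it by `cfcₙHom`). -/
def S_UNI : Prop :=
  ∀ (A : Type) [NonUnitalCStarAlgebra A] [PartialOrder A] [StarOrderedRing A],
    ∃ (𝒜 : Type) (_ : CStarAlgebra 𝒜) (_ : PartialOrder 𝒜) (_ : StarOrderedRing 𝒜) (ι : A → 𝒜),
      (∀ a b, ι (a + b) = ι a + ι b) ∧ (∀ a, ‖ι a‖ = ‖a‖) ∧ (∀ a, 0 ≤ a ↔ 0 ≤ ι a) ∧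
      (∀ a b, ι a = ι b → a = b) ∧ Clo (Set.range ι)

/-- TOP. `Λ = max σ(w) > κ ≥ 0` (spectrum compact, `w ≤ κ` iff `σ(w) ≤ κ`), `h t = max 0 (min 1 ((t - κ)/(Λ - κ)))`,
`e = cfc h w`: `h 0 = 0`, `h Λ = 1`, `h t ^ 2 * (t - κ) ≥ 0`. -/
def S_TOP : Prop :=
  ∀ (𝒜 : Type) [CStarAlgebra 𝒜] [PartialOrder 𝒜] [StarOrderedRing 𝒜] (J : Set 𝒜), Clo J →
    ∀ w ∈ J, IsSelfAdjoint w → ∀ κ : ℝ, 0 ≤ κ → ¬ (w ≤ κ • (1 : 𝒜)) →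
      ∃ e ∈ J, 0 ≤ e ∧ ‖e‖ = 1 ∧ κ • (e * e) ≤ e * w * e

/-- STEP. `s_N = u + N e0²`, `μ_N = ‖s_N‖`, `ν_N = μ_N - N` is nonincreasing and `≥ 0` (`s_N ≥ N e0²`), so for large `N`
(`N ≥ 1`) `ν_{N/2} - ν_N ≤ δ`. `f = cfc h s_N`, `h` continuous, `0 ≤ h ≤ 1`, `h (μ_N) = 1`, `h = 0` on `(-∞, μ_N - δ]`
(`δ < 1 ≤ N ≤ μ_N`, so `h 0 = 0`). `f s_N f ≥ (μ_N - δ) f²`. With `D = f (1 - e0²) f ≥ 0`: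
(1) `f u f ≥ (ν_N - δ) f² + N D` (from `f s_N f ≥ (μ_N - δ) f²`);
(2) `f u f ≤ ν_{N/2} f² + (N/2) D` (from `s_{N/2} ≤ μ_{N/2}`).
So `(N/2) D ≤ (ν_{N/2} - ν_N + δ) f² ≤ 2 δ f² ≤ 2 δ`, `‖D‖ ≤ 4 δ / N ≤ 4 δ`, and with `r = ν_N`:
`-δ f² ≤ f u f - r f² ≤ (ν_{N/2} - ν_N) f² + 2 δ f² ≤ 3 δ f²`. Last `‖(1 - e0) f‖² = ‖f (1 - e0)² f‖ ≤ ‖D‖` as
`(1 - e0)² ≤ 1 - e0²` (`0 ≤ e0 ≤ 1`). -/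
def S_STEP : Prop :=
  ∀ (𝒜 : Type) [CStarAlgebra 𝒜] [PartialOrder 𝒜] [StarOrderedRing 𝒜] (J : Set 𝒜), Clo J →
    ∀ e0 ∈ J, 0 ≤ e0 → ‖e0‖ = 1 → ∀ u ∈ J, 0 ≤ u → ∀ ε : ℝ, 0 < ε →
      ∃ e ∈ J, 0 ≤ e ∧ ‖e‖ = 1 ∧ ‖e0 * e - e‖ ≤ ε ∧ ∃ r : ℝ, 0 ≤ r ∧ ‖e * u * e - r • (e * e)‖ ≤ ε

/-- EXC, from TOP and STEP. `e0` from TOP, then STEP with `u1`, `u2`, `u3` and very small `ε'`; a relation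
`‖e' u e' - r e'²‖ ≤ ε'` passes to the next `e` (`e' e ≈ e`, `e e' ≈ e` by adjoints): `e u e ≈ e e' u e' e ≈ r e e'² e ≈ r e²`
(note `r ≤ ‖u‖ + ε'`, as `‖e'²‖ = 1`), and `κ e'² ≤ e' w e'` gives `κ e e'² e ≤ e e' w e' e`. -/
def S_EXC : Prop :=
  ∀ (𝒜 : Type) [CStarAlgebra 𝒜] [PartialOrder 𝒜] [StarOrderedRing 𝒜] (J : Set 𝒜), Clo J →
    ∀ w ∈ J, IsSelfAdjoint w → ∀ κ : ℝ, 0 ≤ κ → ¬ (w ≤ κ • (1 : 𝒜)) →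
      ∀ u₁ ∈ J, 0 ≤ u₁ → ∀ u₂ ∈ J, 0 ≤ u₂ → ∀ u₃ ∈ J, 0 ≤ u₃ → ∀ ε : ℝ, 0 < ε →
      ∃ e ∈ J, 0 ≤ e ∧ ‖e‖ = 1 ∧ κ • (e * e) - ε • (1 : 𝒜) ≤ e * w * e ∧
        ∃ r₁ r₂ r₃ : ℝ, 0 ≤ r₁ ∧ 0 ≤ r₂ ∧ 0 ≤ r₃ ∧ ‖e * u₁ * e - r₁ • (e * e)‖ ≤ ε ∧
          ‖e * u₂ * e - r₂ • (e * e)‖ ≤ ε ∧ ‖e * u₃ * e - r₃ • (e * e)‖ ≤ ε

/-- UP. `x = (e + (1 - e)) x (e + (1 - e)) ≤ (1 + δ) e x e + (1 + 1/δ) (1 - e) x (1 - e)` (expand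
`(√δ a - b/√δ)* x (√δ a - b/√δ) ≥ 0` with `a = e`, `b = 1 - e`), `e x e ≤ r e² + ε ≤ r + ε`,
`(1 - e) x (1 - e) ≤ ‖x‖ (1 - e)² ≤ ‖x‖ (1 - e²)`. -/
def S_UP : Prop :=
  ∀ (𝒜 : Type) [CStarAlgebra 𝒜] [PartialOrder 𝒜] [StarOrderedRing 𝒜] (e x : 𝒜), 0 ≤ e → ‖e‖ ≤ 1 → 0 ≤ x →
    ∀ r ε δ : ℝ, 0 ≤ r → 0 < ε → 0 < δ → ‖e * x * e - r • (e * e)‖ ≤ ε →
      x ≤ ((1 + δ) * (r + ε)) • (1 : 𝒜) + ((1 + 1 / δ) * ‖x‖) • (1 - e * e)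

/-- LOW. `e x e ≤ (1 + δ) x + (1 + 1/δ) (1 - e) x (1 - e)` (`e = 1 - (1 - e)`), so
`(1 + δ) x ≥ r e² - ε - (1 + 1/δ) ‖x‖ (1 - e²)` and `r e² = r - r (1 - e²)`. -/
def S_LOW : Prop :=
  ∀ (𝒜 : Type) [CStarAlgebra 𝒜] [PartialOrder 𝒜] [StarOrderedRing 𝒜] (e x : 𝒜), 0 ≤ e → ‖e‖ ≤ 1 → 0 ≤ x →
    ∀ r ε δ : ℝ, 0 ≤ r → 0 < ε → 0 < δ → ‖e * x * e - r • (e * e)‖ ≤ ε →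
      (r - ε) • (1 : 𝒜) - ((1 + 1 / δ) * ‖x‖ + r) • (1 - e * e) ≤ (1 + δ) • x

/-- NLOW. `‖x + N e²‖ ≥ ‖e (x + N e²) e‖ ≥ ‖r e² + N e⁴‖ - ε = r + N - ε` (`1 ∈ σ(e)`, spectral mapping). -/
def S_NLOW : Prop :=
  ∀ (𝒜 : Type) [CStarAlgebra 𝒜] [PartialOrder 𝒜] [StarOrderedRing 𝒜] (e x : 𝒜), 0 ≤ e → ‖e‖ = 1 → 0 ≤ x →
    ∀ r ε N : ℝ, 0 ≤ r → 0 < ε → 0 ≤ N → ‖e * x * e - r • (e * e)‖ ≤ ε →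
      N + r - ε ≤ ‖x + N • (e * e)‖

/-- ORD, from EXC, UP, NLOW. If not `X ≤ Y + c`, then not `X - Y ≤ κ` for some `κ > c`. EXC with `w = X - Y`,
`u₁ = X`, `u₂ = u₃ = Y`, small `ε`: `r₁ - r₂ ≥ κ - 3 ε` (norm of `e² `is one). `z = N e²`, `N ≥ (1 + 1/δ) ‖Y‖`:
`N + r₁ - ε ≤ ‖X + z‖ ≤ c + ‖Y + z‖ ≤ c + N + (1 + δ) (r₂ + ε)` (UP: `Y + N e² ≤ (1 + δ)(r₂ + ε) + N (1 - e²) + N e²`),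
so `κ - 3ε - ε ≤ c + δ r₂ + (1 + δ) ε`, `r₂ ≤ ‖Y‖ + ε`: contradiction for small `δ`, then small `ε`. -/
def S_ORD : Prop :=
  ∀ (𝒜 : Type) [CStarAlgebra 𝒜] [PartialOrder 𝒜] [StarOrderedRing 𝒜] (J : Set 𝒜), Clo J →
    ∀ X ∈ J, 0 ≤ X → ∀ Y ∈ J, 0 ≤ Y → ∀ c : ℝ, 0 ≤ c → (∀ z ∈ J, 0 ≤ z → ‖X + z‖ ≤ c + ‖Y + z‖) →
      X ≤ Y + c • (1 : 𝒜)

/-- SUB, from UP, NLOW. `s` excised by `e` with value `r₀`, `x`, `y` with values `r₁`, `r₂`; for every `N > 0` there is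
`X_N` with `‖s + N e²‖ = ‖x + X_N‖`, `‖X_N‖ = ‖y + N e²‖`, `X_N ≤ N e² + ‖y‖`, `0 ≤ X_N`. Then `r₀ ≤ r₁ + r₂ + η` if `ε` is
small: `L = (1 + 1/δ) ‖x‖`, `t = L / N ≤ 1`: `X_N ≤ (1 - t) ‖X_N‖ + t (N e² + ‖y‖)`, `‖X_N‖ ≤ N + (1 + δ)(r₂ + ε)` (UP for `y`),
so `X_N + L (1 - e²) ≤ N + (1 + δ)(r₂ + ε) + t ‖y‖`, and `x ≤ (1 + δ)(r₁ + ε) + L (1 - e²)` (UP). Add up; `N → ∞`. -/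
def S_SUB : Prop :=
  ∀ (𝒜 : Type) [CStarAlgebra 𝒜] [PartialOrder 𝒜] [StarOrderedRing 𝒜] (e s x y : 𝒜), 0 ≤ e → ‖e‖ = 1 →
    0 ≤ s → 0 ≤ x → 0 ≤ y → ∀ ε δ r₀ r₁ r₂ : ℝ, 0 < ε → 0 < δ → 0 ≤ r₀ → 0 ≤ r₁ → 0 ≤ r₂ →
    ‖e * s * e - r₀ • (e * e)‖ ≤ ε → ‖e * x * e - r₁ • (e * e)‖ ≤ ε → ‖e * y * e - r₂ • (e * e)‖ ≤ ε →
    (∀ N : ℝ, 0 < N → ∃ X : 𝒜, 0 ≤ X ∧ ‖s + N • (e * e)‖ = ‖x + X‖ ∧ ‖X‖ = ‖y + N • (e * e)‖ ∧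
      X ≤ N • (e * e) + ‖y‖ • (1 : 𝒜)) →
    r₀ ≤ ε + (1 + δ) * (r₁ + ε) + (1 + δ) * (r₂ + ε)

/-- SUP, from LOW, UP, NLOW. The reverse: `M = (1 + 1/δ) ‖x‖ + r₁`, `(1 + δ) x ≥ (r₁ - ε) - M (1 - e²)` (LOW) and
`N (1 - e²) ≤ N + ‖y‖ - X_N`, so with `t = M / N`: `(1 + δ) x ≥ r₁ - ε - t (N + ‖y‖) + t X_N`, hence
`(1 + δ) (x + X_N) ≥ r₁ - ε - t (N + ‖y‖) + (t + 1 + δ) X_N` and, taking the norm of `X_N ≥ 0` (the top of the spectrum),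
`(1 + δ) ‖x + X_N‖ ≥ r₁ - ε - t (N + ‖y‖) + (t + 1 + δ) (N + r₂ - ε)` (NLOW for `y`); and
`‖x + X_N‖ = ‖s + N e²‖ ≤ N + (1 + δ)(r₀ + ε)` (UP). So `(1 + δ)² (r₀ + ε) ≥ r₁ - ε - t ‖y‖ + (1 + δ) (r₂ - ε) + t (r₂ - ε)`;
`N → ∞`. -/
def S_SUP : Prop :=
  ∀ (𝒜 : Type) [CStarAlgebra 𝒜] [PartialOrder 𝒜] [StarOrderedRing 𝒜] (e s x y : 𝒜), 0 ≤ e → ‖e‖ = 1 →
    0 ≤ s → 0 ≤ x → 0 ≤ y → ∀ ε δ r₀ r₁ r₂ : ℝ, 0 < ε → 0 < δ → 0 ≤ r₀ → 0 ≤ r₁ → 0 ≤ r₂ →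
    ‖e * s * e - r₀ • (e * e)‖ ≤ ε → ‖e * x * e - r₁ • (e * e)‖ ≤ ε → ‖e * y * e - r₂ • (e * e)‖ ≤ ε →
    (∀ N : ℝ, 0 < N → ∃ X : 𝒜, 0 ≤ X ∧ ‖s + N • (e * e)‖ = ‖x + X‖ ∧ ‖X‖ = ‖y + N • (e * e)‖ ∧
      X ≤ N • (e * e) + ‖y‖ • (1 : 𝒜)) →
    r₁ - ε + (1 + δ) * (r₂ - ε) ≤ (1 + δ) ^ 2 * (r₀ + ε)

end Run7.h745.NA
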