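import Mathlib
import Pool.Agent.Run7.h745.NA.Stm

set_option autoImplicit false

namespace Run7.h745.NA

section
variable {𝒜 : Type} [CStarAlgebra 𝒜] [PartialOrder 𝒜] [StarOrderedRing 𝒜]

lemma sa_le {a : 𝒜} (ha : IsSelfAdjoint a) {c : ℝ} (hc : ‖a‖ ≤ c) : a ≤ c • (1 : 𝒜) := by
  have h1 : a ≤ algebraMap ℝ 𝒜 ‖a‖ := IsSelfAdjoint.le_algebraMap_norm_self ha
  refine h1.trans ?_
  rw [Algebra.algebraMap_eq_smul_one]
  exact smul_le_smul_of_nonneg_right hc zero_le_one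

lemma neg_le_sa {a : 𝒜} (ha : IsSelfAdjoint a) {c : ℝ} (hc : ‖a‖ ≤ c) : -(c • (1 : 𝒜)) ≤ a := by
  have h := sa_le ha.neg (by rwa [norm_neg] : ‖-a‖ ≤ c)
  exact neg_le.mp h

lemma norm_ee {e : 𝒜} (he : 0 ≤ e) (hn : ‖e‖ = 1) : ‖e * e‖ = 1 := by
  have h := CStarRing.norm_star_mul_self (x := e)
  rw [(IsSelfAdjoint.of_nonneg he).star_eq, hn] at h
  simpa using h

lemma ee_nonneg {e : 𝒜} (he : 0 ≤ e) : 0 ≤ e * e := by
  have h := star_mul_self_nonneg e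
  rwa [(IsSelfAdjoint.of_nonneg he).star_eq] at h

lemma norm_one_le : ‖(1 : 𝒜)‖ ≤ 1 := by
  rcases subsingleton_or_nontrivial 𝒜 with h | h
  · rw [Subsingleton.elim (1 : 𝒜) 0, norm_zero]; exact zero_le_one
  · rw [CStarRing.norm_one]

lemma coef {e : 𝒜} (he : 0 ≤ e) (hn : ‖e‖ = 1) {c d : ℝ} (hd : 0 ≤ d)
    (h : c • (e * e) ≤ d • (1 : 𝒜)) : c ≤ d := by
  rcases le_or_gt c 0 with hc | hc
  · linarith
  · have h0 : 0 ≤ c • (e * e) := smul_nonneg hc.le (ee_nonneg he)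
    have h1 := CStarAlgebra.norm_le_norm_of_nonneg_of_le h0 h
    rw [norm_smul, norm_smul, norm_ee he hn, Real.norm_of_nonneg hc.le, Real.norm_of_nonneg hd,
      mul_one] at h1
    have := norm_one_le (𝒜 := 𝒜)
    nlinarith

lemma sa_exe {e u : 𝒜} (he : 0 ≤ e) (hu : 0 ≤ u) (r : ℝ) :
    IsSelfAdjoint (e * u * e - r • (e * e)) := by
  have h1 : IsSelfAdjoint e := IsSelfAdjoint.of_nonneg he
  have h2 : IsSelfAdjoint u := IsSelfAdjoint.of_nonneg hu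
  have h3 : IsSelfAdjoint (e * u * e) := by
    rw [isSelfAdjoint_iff, star_mul, star_mul, h1.star_eq, h2.star_eq, mul_assoc]
  have h4 : IsSelfAdjoint (e * e) := IsSelfAdjoint.of_nonneg (ee_nonneg he)
  exact h3.sub ((IsSelfAdjoint.all r).smul h4)

lemma exists_kappa {w : 𝒜} (h : ¬ w ≤ 0) : ∃ κ : ℝ, 0 < κ ∧ ¬ (w ≤ κ • (1 : 𝒜)) := by
  by_contra hcon
  push Not at hcon
  apply h
  have hlim : Filter.Tendsto (fun κ : ℝ => κ • (1 : 𝒜)) (nhdsWithin 0 (Set.Ioi 0)) (nhds 0) := by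
    have h1 : Filter.Tendsto (fun κ : ℝ => κ • (1 : 𝒜)) (nhds 0) (nhds ((0 : ℝ) • (1 : 𝒜))) :=
      (continuous_id.smul continuous_const).tendsto 0
    rw [zero_smul] at h1
    exact h1.mono_left nhdsWithin_le_nhds
  refine ge_of_tendsto hlim ?_
  filter_upwards [self_mem_nhdsWithin] with κ hκ
  exact hcon κ hκ

lemma lim_zero {f g : ℝ → ℝ} (hf : Continuous f) (hg : Continuous g)
    (h : ∀ δ : ℝ, 0 < δ → f δ ≤ g δ) : f 0 ≤ g 0 := by
  have h1 : Filter.Tendsto f (nhdsWithin 0 (Set.Ioi 0)) (nhds (f 0)) :=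
    (hf.tendsto 0).mono_left nhdsWithin_le_nhds
  have h2 : Filter.Tendsto g (nhdsWithin 0 (Set.Ioi 0)) (nhds (g 0)) :=
    (hg.tendsto 0).mono_left nhdsWithin_le_nhds
  refine le_of_tendsto_of_tendsto h1 h2 ?_
  filter_upwards [self_mem_nhdsWithin] with δ hδ
  exact h δ hδ

theorem core (hORD : S_ORD) (hEXC : S_EXC) (hSUB : S_SUB) (hSUP : S_SUP)
    {A₁ : Type} [NonUnitalCStarAlgebra A₁] [PartialOrder A₁] [StarOrderedRing A₁]
    (J : Set 𝒜) (hJ : Clo J) (T : A₁ → 𝒜)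
    (hT0 : ∀ a, 0 ≤ a → 0 ≤ T a) (hTJ : ∀ a, 0 ≤ a → T a ∈ J)
    (hTs : ∀ b ∈ J, 0 ≤ b → ∃ a, 0 ≤ a ∧ T a = b)
    (hTn : ∀ f g, 0 ≤ f → 0 ≤ g → ‖T f + T g‖ = ‖T (f + g)‖) (f g : A₁) (hf : 0 ≤ f) (hg : 0 ≤ g) :
    T (f + g) = T f + T g := by
  have hfg : 0 ≤ f + g := add_nonneg hf hg
  -- the elements `X_N`
  have hX : ∀ e ∈ J, 0 ≤ e → ∀ N : ℝ, 0 < N → ∃ X : 𝒜, 0 ≤ X ∧
      ‖T (f + g) + N • (e * e)‖ = ‖T f + X‖ ∧ ‖X‖ = ‖T g + N • (e * e)‖ ∧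
      X ≤ N • (e * e) + ‖T g‖ • (1 : 𝒜) := by
    intro e heJ he N hN
    have h1 : N • (e * e) ∈ J := hJ.smul _ _ (hJ.mul _ heJ _ heJ)
    have h2 : 0 ≤ N • (e * e) := smul_nonneg hN.le (ee_nonneg he)
    obtain ⟨h, hh, hTh⟩ := hTs _ h1 h2
    have hgh : 0 ≤ g + h := add_nonneg hg hh
    refine ⟨T (g + h), hT0 _ hgh, ?_, ?_, ?_⟩
    · rw [← hTh, hTn _ _ hfg hh, hTn _ _ hf hgh, add_assoc]
    · rw [← hTh, hTn _ _ hg hh]
    · refine hORD 𝒜 J hJ _ (hTJ _ hgh) (hT0 _ hgh) _ h1 h2 ‖T g‖ (norm_nonneg _) ?_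
      intro z hz hz0
      obtain ⟨k, hk, hTk⟩ := hTs z hz hz0
      rw [← hTk, ← hTh, hTn _ _ hgh hk, hTn _ _ hh hk, add_assoc, ← hTn _ _ hg (add_nonneg hh hk)]
      exact norm_add_le _ _
  have hs0 := hT0 _ hfg
  have hx0 := hT0 _ hf
  have hy0 := hT0 _ hg
  have hsJ := hTJ _ hfg
  have hxJ := hTJ _ hf
  have hyJ := hTJ _ hg
  have hsa : IsSelfAdjoint (T (f + g)) := IsSelfAdjoint.of_nonneg hs0
  have hxa : IsSelfAdjoint (T f) := IsSelfAdjoint.of_nonneg hx0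
  have hya : IsSelfAdjoint (T g) := IsSelfAdjoint.of_nonneg hy0
  have hneg : ∀ a ∈ J, -a ∈ J := by
    intro a ha
    have := hJ.smul (-1) a ha
    rwa [neg_one_smul] at this
  apply le_antisymm
  · by_contra hcon
    have hw : ¬ (T (f + g) - (T f + T g) ≤ 0) := fun h => hcon (sub_nonpos.1 h)
    obtain ⟨κ, hκ, hwκ⟩ := exists_kappa hw
    have hwJ : T (f + g) - (T f + T g) ∈ J := by
      rw [sub_eq_add_neg]
      exact hJ.add _ hsJ _ (hneg _ (hJ.add _ hxJ _ hyJ))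
    obtain ⟨e, heJ, he, hn, hew, r₀, r₁, r₂, h0, h1, h2, e0, e1, e2⟩ :=
      hEXC 𝒜 J hJ _ hwJ (hsa.sub (hxa.add hya)) κ hκ.le hwκ _ hsJ hs0 _ hxJ hx0 _ hyJ hy0 (κ / 8)
        (by positivity)
    have hr : r₀ ≤ κ / 8 + (1 + 0) * (r₁ + κ / 8) + (1 + 0) * (r₂ + κ / 8) := by
      refine lim_zero (f := fun _ => r₀)
        (g := fun δ => κ / 8 + (1 + δ) * (r₁ + κ / 8) + (1 + δ) * (r₂ + κ / 8))
        continuous_const (by fun_prop) ?_
      intro δ hδ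
      exact hSUB 𝒜 e _ _ _ he hn hs0 hx0 hy0 (κ / 8) δ r₀ r₁ r₂ (by positivity) hδ h0 h1 h2 e0 e1 e2
        (hX e heJ he)
    have k0 := sa_le (sa_exe he hs0 r₀) e0
    have k1 := neg_le_sa (sa_exe he hx0 r₁) e1
    have k2 := neg_le_sa (sa_exe he hy0 r₂) e2
    have key : (κ - (r₀ - r₁ - r₂)) • (e * e) ≤ (κ / 2) • (1 : 𝒜) := by
      have h3 := add_le_add (add_le_add (add_le_add hew k0) (neg_le_neg k1)) (neg_le_neg k2)
      have h4 : (κ - (r₀ - r₁ - r₂)) • (e * e) =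
          (κ • (e * e) - (κ / 8) • (1 : 𝒜)) + (κ / 8) • (1 : 𝒜) - r₀ • (e * e) + r₁ • (e * e)
            + r₂ • (e * e) := by
        simp only [sub_smul]; abel
      have h5 : e * (T (f + g) - (T f + T g)) * e =
          e * T (f + g) * e - e * T f * e - e * T g * e := by
        simp only [mul_sub, sub_mul, mul_add, add_mul]; abel
      rw [h5] at hew
      have h6 : κ • (e * e) ≤ (κ / 8) • (1 : 𝒜) + (e * T (f + g) * e - e * T f * e - e * T g * e) := by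
        rwa [sub_le_iff_le_add'] at hew
      have h7 : e * T (f + g) * e ≤ r₀ • (e * e) + (κ / 8) • (1 : 𝒜) := by
        rwa [sub_le_iff_le_add'] at k0
      have h8 : r₁ • (e * e) - (κ / 8) • (1 : 𝒜) ≤ e * T f * e := by
        rw [neg_le_sub_iff_le_add] at k1
        rwa [sub_le_iff_le_add]
      have h9 : r₂ • (e * e) - (κ / 8) • (1 : 𝒜) ≤ e * T g * e := by
        rw [neg_le_sub_iff_le_add] at k2
        rwa [sub_le_iff_le_add]
      calc (κ - (r₀ - r₁ - r₂)) • (e * e)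
          = κ • (e * e) - r₀ • (e * e) + r₁ • (e * e) + r₂ • (e * e) := by
            simp only [sub_smul]; abel
        _ ≤ (κ / 8) • (1 : 𝒜) + (e * T (f + g) * e - e * T f * e - e * T g * e)
              - r₀ • (e * e) + r₁ • (e * e) + r₂ • (e * e) := by gcongr
        _ ≤ (κ / 8) • (1 : 𝒜) + ((r₀ • (e * e) + (κ / 8) • (1 : 𝒜))
              - (r₁ • (e * e) - (κ / 8) • (1 : 𝒜)) - (r₂ • (e * e) - (κ / 8) • (1 : 𝒜)))
              - r₀ • (e * e) + r₁ • (e * e) + r₂ • (e * e) := by gcongr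
        _ = (κ / 8 + κ / 8 + κ / 8 + κ / 8) • (1 : 𝒜) := by
            simp only [add_smul]; abel
        _ = (κ / 2) • (1 : 𝒜) := by ring_nf
    have := coef he hn (by positivity) key
    linarith
  · by_contra hcon
    have hw : ¬ ((T f + T g) - T (f + g) ≤ 0) := fun h => hcon (sub_nonpos.1 h)
    obtain ⟨κ, hκ, hwκ⟩ := exists_kappa hw
    have hwJ : (T f + T g) - T (f + g) ∈ J := by
      rw [sub_eq_add_neg]
      exact hJ.add _ (hJ.add _ hxJ _ hyJ) _ (hneg _ hsJ)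
    obtain ⟨e, heJ, he, hn, hew, r₀, r₁, r₂, h0, h1, h2, e0, e1, e2⟩ :=
      hEXC 𝒜 J hJ _ hwJ ((hxa.add hya).sub hsa) κ hκ.le hwκ _ hsJ hs0 _ hxJ hx0 _ hyJ hy0 (κ / 8)
        (by positivity)
    have hr : r₁ - κ / 8 + (1 + 0) * (r₂ - κ / 8) ≤ (1 + 0) ^ 2 * (r₀ + κ / 8) := by
      refine lim_zero (f := fun δ => r₁ - κ / 8 + (1 + δ) * (r₂ - κ / 8))
        (g := fun δ => (1 + δ) ^ 2 * (r₀ + κ / 8))
        (by fun_prop) (by fun_prop) ?_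
      intro δ hδ
      exact hSUP 𝒜 e _ _ _ he hn hs0 hx0 hy0 (κ / 8) δ r₀ r₁ r₂ (by positivity) hδ h0 h1 h2 e0 e1 e2
        (hX e heJ he)
    have k0 := neg_le_sa (sa_exe he hs0 r₀) e0
    have k1 := sa_le (sa_exe he hx0 r₁) e1
    have k2 := sa_le (sa_exe he hy0 r₂) e2
    have key : (κ - (r₁ + r₂ - r₀)) • (e * e) ≤ (κ / 2) • (1 : 𝒜) := by
      have h5 : e * ((T f + T g) - T (f + g)) * e =
          e * T f * e + e * T g * e - e * T (f + g) * e := by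
        simp only [mul_sub, sub_mul, mul_add, add_mul]
      rw [h5] at hew
      have h6 : κ • (e * e) ≤ (κ / 8) • (1 : 𝒜) + (e * T f * e + e * T g * e - e * T (f + g) * e) := by
        rwa [sub_le_iff_le_add'] at hew
      have h7 : e * T f * e ≤ r₁ • (e * e) + (κ / 8) • (1 : 𝒜) := by
        rwa [sub_le_iff_le_add'] at k1
      have h8 : e * T g * e ≤ r₂ • (e * e) + (κ / 8) • (1 : 𝒜) := by
        rwa [sub_le_iff_le_add'] at k2
      have h9 : r₀ • (e * e) - (κ / 8) • (1 : 𝒜) ≤ e * T (f + g) * e := by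
        rw [neg_le_sub_iff_le_add] at k0
        rwa [sub_le_iff_le_add]
      calc (κ - (r₁ + r₂ - r₀)) • (e * e)
          = κ • (e * e) - r₁ • (e * e) - r₂ • (e * e) + r₀ • (e * e) := by
            simp only [sub_smul, add_smul]; abel
        _ ≤ (κ / 8) • (1 : 𝒜) + (e * T f * e + e * T g * e - e * T (f + g) * e)
              - r₁ • (e * e) - r₂ • (e * e) + r₀ • (e * e) := by gcongr
        _ ≤ (κ / 8) • (1 : 𝒜) + ((r₁ • (e * e) + (κ / 8) • (1 : 𝒜))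
              + (r₂ • (e * e) + (κ / 8) • (1 : 𝒜)) - (r₀ • (e * e) - (κ / 8) • (1 : 𝒜)))
              - r₁ • (e * e) - r₂ • (e * e) + r₀ • (e * e) := by gcongr
        _ = (κ / 8 + κ / 8 + κ / 8 + κ / 8) • (1 : 𝒜) := by
            simp only [add_smul]; abel
        _ = (κ / 2) • (1 : 𝒜) := by ring_nf
    have := coef he hn (by positivity) key
    linarith

end

theorem fin (hUNI : S_UNI) (hORD : S_ORD) (hEXC : S_EXC) (hSUB : S_SUB) (hSUP : S_SUP)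
    (A₁ A₂ : Type) [NonUnitalCStarAlgebra A₁] [PartialOrder A₁] [StarOrderedRing A₁]
    [NonUnitalCStarAlgebra A₂] [PartialOrder A₂] [StarOrderedRing A₂] (T : A₁ → A₂)
    (hT0 : ∀ a : A₁, 0 ≤ a → 0 ≤ T a) (hTs : ∀ b : A₂, 0 ≤ b → ∃ a : A₁, 0 ≤ a ∧ T a = b)
    (hTn : ∀ f g : A₁, 0 ≤ f → 0 ≤ g → ‖T f + T g‖ = ‖T (f + g)‖) (f g : A₁) (hf : 0 ≤ f)
    (hg : 0 ≤ g) : T (f + g) = T f + T g := by
  obtain ⟨𝒜, _, _, _, ι, hadd, hnorm, hpos, hinj, hJ⟩ := hUNI A₂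
  apply hinj
  rw [hadd]
  refine core hORD hEXC hSUB hSUP (Set.range ι) hJ (fun a => ι (T a)) (fun a ha => (hpos _).1 (hT0 a ha))
    (fun a _ => ⟨_, rfl⟩) ?_ ?_ f g hf hg
  · rintro _ ⟨b, rfl⟩ hb
    obtain ⟨a, ha, hab⟩ := hTs b ((hpos b).2 hb)
    exact ⟨a, ha, by rw [hab]⟩
  · intro f g hf hg
    rw [← hadd, hnorm, hnorm]
    exact hTn f g hf hg

end Run7.h745.NA
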